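import Pool.Agent.Results.MP_31d0eb_nt.AllScales
import Pool.Agent.H622R3.SP.Metric

/-! Primes in `(x, x + (log x)^2)` for `x = α ^ b n`, for almost all `α > 1` and every sequence
`b n → ∞`: a metric version of Schinzel's question. -/

set_option autoImplicit false

open Filter Topology MeasureTheory
open Pool.Agent.H357R2.SI

namespace Pool.Agent.Results.MP_45ff98_nt.AlmostAllPowers

/-- number of primes in the open interval `(x, x + H)` -/
noncomputable def primesAfter (x H : ℝ) : ℕ := {p : ℕ | p.Prime ∧ x < p ∧ (p : ℝ) < x + H}.ncard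

/-- the interval `(x, x + H)` contains the right order of primes simultaneously for all `H` between
`K log x` and `x / 2` -/
def Regular (δ K lam x : ℝ) : Prop := ∀ H : ℝ, K * Real.log x ≤ H → H ≤ x / 2 →
  (1 - δ) * H / Real.log x ≤ primesAfter x H ∧
    (primesAfter x H : ℝ) ≤ lam * H / Real.log x

/-- Schinzel's interval `(x, x + (log x)^2)` contains between `(1 - δ) log x` and `lam log x`
primes -/
def Schinzel (δ lam x : ℝ) : Prop :=
  (1 - δ) * Real.log x ≤ primesAfter x (Real.log x ^ 2) ∧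
    (primesAfter x (Real.log x ^ 2) : ℝ) ≤ lam * Real.log x

lemma pa_finite (x H : ℝ) : {p : ℕ | p.Prime ∧ x < p ∧ (p : ℝ) < x + H}.Finite := by
  refine (Set.finite_Iio ⌈x + H⌉₊).subset fun p hp => ?_
  exact Nat.lt_ceil.2 hp.2.2

lemma pa_ge {m : ℕ} {x H : ℝ} (hx1 : (m : ℝ) < x) (hx2 : x < m + 1) (hH : 0 ≤ H) :
    piS m H ≤ primesAfter x H := by
  unfold piS primesAfter
  rw [← Set.ncard_coe_finset]
  apply Set.ncard_le_ncard _ (pa_finite x H)
  intro p hp
  simp only [Finset.coe_filter, Finset.mem_Ioc, Nat.floor_natCast, Set.mem_ofPred_eq] at hp ⊢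
  obtain ⟨⟨h1, h2⟩, h3⟩ := hp
  have h4 : (m : ℝ) + 1 ≤ p := by exact_mod_cast h1
  have h5 : (p : ℝ) ≤ m + H := (Nat.le_floor_iff (by positivity)).1 h2
  exact ⟨h3, by linarith, by linarith⟩

lemma pa_le {m : ℕ} {x H : ℝ} (hx1 : (m : ℝ) < x) (hx2 : x < m + 1) (hH : 0 ≤ H) :
    primesAfter x H ≤ piS m (H + 1) := by
  unfold piS primesAfter
  rw [← Set.ncard_coe_finset]
  apply Set.ncard_le_ncard _ (Finset.finite_toSet _)
  intro p hp
  simp only [Finset.coe_filter, Finset.mem_Ioc, Nat.floor_natCast, Set.mem_ofPred_eq] at hp ⊢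
  obtain ⟨h3, h4, h5⟩ := hp
  have h6 : (m : ℝ) < p := by linarith
  refine ⟨⟨by exact_mod_cast h6, ?_⟩, h3⟩
  rw [Nat.le_floor_iff (by positivity)]
  linarith

/-- the positions which are good for both statements -/
def goodSet (δ K lam : ℝ) : Set ℕ := {m : ℕ | ∀ x : ℝ, (m : ℝ) < x → x < m + 1 →
  Regular δ K lam x ∧ Schinzel δ lam x}

open Classical in
/-- positions good for both statements have positive lower density -/
lemma good_density (δ : ℝ) (hδ0 : 0 < δ) (hδ1 : δ < 1) :
    ∃ K lam c : ℝ, 0 < K ∧ 0 < lam ∧ 0 < c ∧ ∀ᶠ N : ℕ in atTop,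
      c * N ≤ (((Finset.range N).filter (fun m : ℕ => m ∈ goodSet δ K lam)).card : ℝ) := by
  obtain ⟨K, lam, c, hK, hlam, hc, hN⟩ := Pool.Agent.Results.MP_31d0eb_nt.AllScales.result δ hδ0 hδ1
  -- thresholds
  have hlog : Tendsto (fun m : ℕ => Real.log (m : ℝ)) atTop atTop :=
    Real.tendsto_log_atTop.comp tendsto_natCast_atTop_atTop
  have hsq : ∀ᶠ x : ℝ in atTop, Real.log x ^ 2 ≤ x / 2 := by
    have h := (isLittleO_log_rpow_rpow_atTop (s := 1) 2 one_pos).bound
      (by norm_num : (0 : ℝ) < 1 / 2)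
    filter_upwards [h, eventually_ge_atTop 1] with x hx hx1
    have h0 : 0 ≤ Real.log x := Real.log_nonneg hx1
    rw [Real.rpow_one, Real.norm_of_nonneg (by positivity), Real.norm_of_nonneg (by linarith)] at hx
    have h2 : Real.log x ^ (2 : ℝ) = Real.log x ^ 2 := by
      rw [← Real.rpow_natCast]; norm_num
    rw [h2] at hx
    linarith
  obtain ⟨x₀, hx₀⟩ := eventually_atTop.1 hsq
  obtain ⟨m₁, hm₁⟩ := eventually_atTop.1 (hlog.eventually_ge_atTop (max K (1 / K)))
  set m₀ : ℕ := max (max m₁ ⌈x₀⌉₊) 4 with hm₀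
  refine ⟨K, 4 * lam, c / 2, hK, by positivity, by positivity, ?_⟩
  have hNbig : ∀ᶠ N : ℕ in atTop, (m₀ : ℝ) ≤ c / 2 * N :=
    (tendsto_natCast_atTop_atTop.const_mul_atTop (by positivity)).eventually_ge_atTop _
  filter_upwards [hN, hNbig] with N h1 h2
  have hsub : (Finset.range N).filter (fun n : ℕ =>
      ∀ H : ℝ, K * Real.log n ≤ H → H ≤ n →
        (1 - δ) * H / Real.log n ≤ piS n H ∧ (piS n H : ℝ) ≤ lam * H / Real.log n) ⊆
      (Finset.range N).filter (fun m : ℕ => m ∈ goodSet δ K (4 * lam)) ∪ Finset.range m₀ := by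
    intro m hm
    rw [Finset.mem_filter] at hm
    obtain ⟨hmN, hm⟩ := hm
    rw [Finset.mem_union, Finset.mem_filter, Finset.mem_range, Finset.mem_range]
    by_cases hmm : m < m₀
    · exact Or.inr hmm
    left
    push Not at hmm
    refine ⟨Finset.mem_range.1 hmN, ?_⟩
    have hm1 : m₁ ≤ m := (le_max_left _ _).trans ((le_max_left _ _).trans hmm)
    have hmx : x₀ ≤ m := (Nat.le_ceil x₀).trans
      (by exact_mod_cast (le_max_right _ _).trans ((le_max_left _ _).trans hmm))
    have hm4 : 4 ≤ m := (le_max_right _ _).trans hmm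
    have hm4r : (4 : ℝ) ≤ m := by exact_mod_cast hm4
    have hKm : max K (1 / K) ≤ Real.log m := hm₁ m hm1
    have hlm1 : 1 ≤ Real.log m := by
      rcases le_total K 1 with h | h
      · have : 1 ≤ 1 / K := by rwa [le_div_iff₀ hK, one_mul]
        exact this.trans ((le_max_right _ _).trans hKm)
      · exact h.trans ((le_max_left _ _).trans hKm)
    have hKl1 : 1 ≤ K * Real.log m := by
      have h3 : 1 / K ≤ Real.log m := (le_max_right _ _).trans hKm
      rw [div_le_iff₀ hK] at h3
      linarith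
    rintro x hx1 hx2
    have hx0 : 0 < x := by linarith
    have hlmx : Real.log m ≤ Real.log x := Real.log_le_log (by linarith) hx1.le
    have hlm0 : 0 < Real.log m := by linarith
    have hlx0 : 0 < Real.log x := by linarith
    have hlx2 : Real.log x ≤ 2 * Real.log m := by
      rw [← Real.log_rpow (by linarith), show (2 : ℝ) = ((2 : ℕ) : ℝ) by norm_num,
        Real.rpow_natCast]
      apply Real.log_le_log hx0
      nlinarith
    have hreg : Regular δ K (4 * lam) x := by
      intro H hH1 hH2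
      have hH1m : K * Real.log m ≤ H := (mul_le_mul_of_nonneg_left hlmx hK.le).trans hH1
      have hHone : 1 ≤ H := hKl1.trans hH1m
      have hHm : H + 1 ≤ m := by linarith
      obtain ⟨ha, -⟩ := hm H hH1m (by linarith)
      obtain ⟨-, hb⟩ := hm (H + 1) (by linarith) hHm
      constructor
      · refine le_trans ?_ (ha.trans (by exact_mod_cast pa_ge hx1 hx2 (by linarith)))
        apply div_le_div_of_nonneg_left _ hlm0 hlmx
        have : 0 ≤ 1 - δ := by linarith
        positivity
      · have h3 : (primesAfter x H : ℝ) ≤ piS m (H + 1) := by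
          exact_mod_cast pa_le hx1 hx2 (by linarith)
        refine (h3.trans hb).trans ?_
        rw [div_le_div_iff₀ hlm0 hlx0]
        calc lam * (H + 1) * Real.log x ≤ lam * (2 * H) * (2 * Real.log m) := by
              gcongr
              linarith
          _ = 4 * lam * H * Real.log m := by ring
    refine ⟨hreg, ?_⟩
    have hKx : K ≤ Real.log x := ((le_max_left _ _).trans hKm).trans hlmx
    obtain ⟨ha, hb⟩ := hreg (Real.log x ^ 2) (by nlinarith) (hx₀ x (by linarith))
    have e1 : ∀ t : ℝ, t * Real.log x ^ 2 / Real.log x = t * Real.log x := by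
      intro t
      field_simp
    rw [e1] at ha hb
    exact ⟨ha, hb⟩
  have h3 := (Finset.card_le_card hsub).trans (Finset.card_union_le _ _)
  rw [Finset.card_range] at h3
  have h4 := (h1.trans (Nat.cast_le.2 h3) : c * (N : ℝ) ≤ _)
  push_cast at h4
  linarith

/-- For every `0 < δ < 1` there are `K, lam, c > 0` such that for every real sequence `b n → ∞`
and almost every real `α > 1` the set of `n` for which `x = α ^ b n` has the right order of primes
in `(x, x + H)` for all `H` between `K log x` and `x / 2`, and between `(1 - δ) log x` and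
`lam log x` primes in Schinzel's interval `(x, x + (log x)^2)`, has upper density at least `c`. -/
theorem result : ∀ δ : ℝ, 0 < δ → δ < 1 → ∃ K lam c : ℝ, 0 < K ∧ 0 < lam ∧ 0 < c ∧
    ∀ b : ℕ → ℝ, Tendsto b atTop atTop → ∀ᵐ α : ℝ, 1 < α → ∃ᶠ N : ℕ in atTop,
      c * N ≤ ({n : ℕ | n < N ∧ Regular δ K lam (α ^ b n) ∧
        Schinzel δ lam (α ^ b n)}.ncard : ℝ) := by
  classical
  intro δ hδ0 hδ1
  obtain ⟨K, lam, c, hK, hlam, hc, hN⟩ := good_density δ hδ0 hδ1
  refine ⟨K, lam, c / 2, hK, hlam, by positivity, fun b hb => ?_⟩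
  filter_upwards [Pool.Agent.H622R3.SP.metric _ c hc hN b hb] with α hα hα1
  refine (hα hα1).mono fun N h => h.trans ?_
  rw [← Set.ncard_coe_finset]
  apply Nat.cast_le.2
  apply Set.ncard_le_ncard
  · intro n hn
    simp only [Finset.coe_filter, Finset.mem_range, Set.mem_ofPred_eq] at hn ⊢
    obtain ⟨hnN, m, hm, h1, h2⟩ := hn
    exact ⟨hnN, hm _ h1 h2⟩
  · exact (Set.finite_Iio N).subset fun n hn => hn.1

end Pool.Agent.Results.MP_45ff98_nt.AlmostAllPowers
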