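import Mathlib
import Pool.Agent.R529.SM.L5

set_option autoImplicit false

/-!
# The intervals `(x, x + c (log x)²)` for `x` in an arbitrary set, in random models of the primes

The question is whether every interval `(x, x + (log x)²)`, `x > 8`, contains a prime.  We consider
EVERY sequential random model of the primes: the integers are decided one after the other, only
integers coprime to a fixed `Q` can be chosen, and the conditional probability of choosing `n + 1`
(coprime to `Q`) given the past is asymptotic to `(Q / φ(Q)) / log n`; no independence is assumed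
(for `Q = 1` Cramér's model and the Hawkins random sieve are examples).  Let `E` be ANY infinite set
of positive integers, the starting points, and let `α` be its exponent of convergence, the infimum of
the `s ≥ 0` for which the sum of `x⁻ˢ` over `x ∈ E` converges (`0 ≤ α ≤ 1`).  Almost surely:

* the critical length for the starting points in `E` is `α (log x)²`: the interval
  `(x, x + c (log x)²)` contains members for all large `x ∈ E` if `c > α`, and it contains none
  for infinitely many `x ∈ E` if `c < α`; so the upper limit, over `x ∈ E`, of the distance from `x`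
  to the next member divided by `(log x)²` is the exponent of convergence of `E`;
* for every `c > 0` the number of members of `(x, x + c (log x)²)`, divided by `c log x`, has over
  `x ∈ E` the upper limit `a ≥ 1`, where `c (a log a - a + 1) = α`, and the lower limit `b ≤ 1`,
  where `b = 0` if `c ≤ α` and `c (b log b - b + 1) = α` if `c > α`;
* so if `α < 1` then the intervals `(x, x + (log x)²)` of the question contain more than `κ log x`
  members for all large `x ∈ E`, with a constant `κ > 0`.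
-/

open MeasureTheory Filter
open scoped Topology

namespace Pool.Agent.Results.MP_45ff98_nt.ArbitraryStartingPoints

/-- the exponent of convergence of a set of natural numbers -/
noncomputable def exponent (E : Set ℕ) : ℝ :=
  sInf {s : ℝ | 0 ≤ s ∧ Summable (fun x : E => ((x : ℕ) : ℝ) ^ (-s))}

/-- the number of members `m` of `S` with `x < m < x + y` -/
noncomputable def count (S : Set ℕ) (x : ℕ) (y : ℝ) : ℕ :=
  Set.ncard {m : ℕ | m ∈ S ∧ x < m ∧ (m : ℝ) < (x : ℝ) + y}

open Pool.Agent.R528.RM Pool.Agent.R529.SM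

lemma rpow_anti (x : ℕ) {s t : ℝ} (hs : 0 ≤ s) (hst : s ≤ t) : (x : ℝ) ^ (-t) ≤ (x : ℝ) ^ (-s) := by
  rcases Nat.eq_zero_or_pos x with h | h
  · rcases hs.eq_or_lt with h0 | h0
    · rcases (hs.trans hst).eq_or_lt with h1 | h1
      · rw [← h0, ← h1]
      · rw [h, Nat.cast_zero, Real.zero_rpow (by linarith)]
        positivity
    · rw [h, Nat.cast_zero, Real.zero_rpow (by linarith), Real.zero_rpow (by linarith)]
  · exact Real.rpow_le_rpow_of_exponent_le (by exact_mod_cast h) (by linarith)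

lemma summable_up {E : Set ℕ} {s t : ℝ} (hs : 0 ≤ s) (hst : s ≤ t)
    (h : Summable (fun x : E => ((x : ℕ) : ℝ) ^ (-s))) : Summable (fun x : E => ((x : ℕ) : ℝ) ^ (-t)) :=
  Summable.of_nonneg_of_le (fun x => by positivity) (fun x => rpow_anti x hs hst) h

lemma mem_two (E : Set ℕ) {s : ℝ} (hs : 1 < s) :
    s ∈ {s : ℝ | 0 ≤ s ∧ Summable (fun x : E => ((x : ℕ) : ℝ) ^ (-s))} :=
  ⟨by linarith, (Real.summable_nat_rpow.2 (by linarith)).subtype E⟩

lemma bdd (E : Set ℕ) : BddBelow {s : ℝ | 0 ≤ s ∧ Summable (fun x : E => ((x : ℕ) : ℝ) ^ (-s))} :=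
  ⟨0, fun _ h => h.1⟩

lemma exponent_nonneg (E : Set ℕ) : 0 ≤ exponent E :=
  le_csInf ⟨2, mem_two E one_lt_two⟩ fun _ h => h.1

lemma exponent_le_one (E : Set ℕ) : exponent E ≤ 1 :=
  le_of_forall_gt_imp_ge_of_dense fun _ hs => csInf_le (bdd E) (mem_two E hs)

lemma above {E : Set ℕ} {s : ℝ} (hs : exponent E < s) : Summable (fun x : E => ((x : ℕ) : ℝ) ^ (-s)) := by
  obtain ⟨t, ht, hts⟩ := exists_lt_of_csInf_lt ⟨2, mem_two E one_lt_two⟩ hs
  exact summable_up ht.1 hts.le ht.2

lemma below {E : Set ℕ} {s : ℝ} (hs0 : 0 < s) (hs : s < exponent E) :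
    ¬ Summable (fun x : E => ((x : ℕ) : ℝ) ^ (-s)) :=
  fun h => notMem_of_lt_csInf hs (bdd E) ⟨hs0.le, h⟩

lemma count_eq {Ω : Type} {A : ℕ → Set Ω} (ω : Ω) (x : ℕ) {c : ℝ} (hc : 0 ≤ c) :
    count {k | ω ∈ A k} x (c * Real.log x ^ 2) = cnt A x (hh c x) ω := by
  rw [cnt_eq_ncard]
  unfold count hh
  congr 1
  ext m
  simp only [Set.mem_ofPred_eq]
  refine and_congr_right fun _ => and_congr_right fun hx => ?_
  obtain ⟨i, rfl⟩ : ∃ i, m = x + i := ⟨m - x, by omega⟩
  have h1 : ((x + i : ℕ) : ℝ) < x + c * Real.log x ^ 2 ↔ i < ⌈c * Real.log x ^ 2⌉₊ := by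
    rw [Nat.lt_ceil]
    push_cast
    constructor <;> intro h <;> linarith
  rw [h1]
  omega

lemma no_member {S : Set ℕ} {x : ℕ} {y : ℝ} (h : count S x y = 0) (m : ℕ) (hm : m ∈ S) (hxm : x < m) :
    (x : ℝ) + y ≤ m := by
  by_contra hcon
  push Not at hcon
  have hfin : {m : ℕ | m ∈ S ∧ x < m ∧ (m : ℝ) < (x : ℝ) + y}.Finite := by
    refine (Set.finite_Iio ⌈(x : ℝ) + y⌉₊).subset fun k hk => ?_
    exact Nat.lt_ceil.2 hk.2.2
  have := (Set.ncard_eq_zero hfin).1 h
  have h2 : m ∈ ({m : ℕ | m ∈ S ∧ x < m ∧ (m : ℝ) < (x : ℝ) + y} : Set ℕ) := ⟨hm, hxm, hcon⟩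
  rw [this] at h2
  exact h2

lemma exists_member {S : Set ℕ} {x : ℕ} {y : ℝ} (h : 0 < count S x y) :
    ∃ m ∈ S, x < m ∧ (m : ℝ) < x + y := by
  obtain ⟨m, hm⟩ := Set.nonempty_of_ncard_ne_zero (Nat.pos_iff_ne_zero.1 h)
  exact ⟨m, hm.1, hm.2.1, hm.2.2⟩

end Pool.Agent.Results.MP_45ff98_nt.ArbitraryStartingPoints

open Pool.Agent.Results.MP_45ff98_nt.ArbitraryStartingPoints

/-- Let `A n` be the event that `n` belongs to a random set adapted to a filtration `ℱ`, let
`Q ≥ 1`, let no integer which is not coprime to `Q` be chosen, and let the conditional probability of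
`A (n + 1)` given `ℱ n`, times `log n`, tend to `Q / φ(Q)` along the `n` with `n + 1` coprime to `Q`,
almost surely.  Let `E` be an infinite set of natural numbers and `α` its exponent of convergence.
Then `0 ≤ α ≤ 1`, and:
1. almost surely, for every `c > α` the interval `(x, x + c (log x)²)` contains a member for all large
`x ∈ E`, and for every `c < α` it contains no member for infinitely many `x ∈ E`;
2. for every `c > 0` there are `a ≥ 1` with `c (a log a - a + 1) = α` and `b ≤ 1`, equal to `0` if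
`c ≤ α`, or positive with `c (b log b - b + 1) = α`, such that almost surely the number of
members of `(x, x + c (log x)²)`, divided by `c log x`, has upper limit `a` and lower limit `b` over
`x ∈ E`;
3. if `α < 1` there is `κ > 0` such that almost surely the interval `(x, x + (log x)²)` contains more
than `κ log x` members for all large `x ∈ E`. -/
theorem Pool.Agent.Results.MP_45ff98_nt.ArbitraryStartingPoints.result
    {Ω : Type} [mΩ : MeasurableSpace Ω] (μ : Measure Ω) [IsProbabilityMeasure μ]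
    (ℱ : Filtration ℕ mΩ) (A : ℕ → Set Ω) (hA : ∀ n, MeasurableSet[ℱ n] (A n))
    (Q : ℕ) (hQ : 0 < Q) (hcop : ∀ n, ¬ Nat.Coprime n Q → A n = ∅)
    (hd : ∀ᵐ ω ∂μ, Tendsto (fun n : ℕ =>
      (μ[(A (n + 1)).indicator (fun _ => (1 : ℝ)) | ℱ n]) ω * Real.log n)
      (atTop ⊓ 𝓟 {n : ℕ | Nat.Coprime (n + 1) Q}) (𝓝 ((Q : ℝ) / Nat.totient Q)))
    (E : Set ℕ) (hE : E.Infinite) :
    (0 ≤ exponent E ∧ exponent E ≤ 1) ∧
    (∀ᵐ ω ∂μ,
      (∀ c : ℝ, exponent E < c → ∀ᶠ x : ℕ in atTop, x ∈ E →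
        ∃ m ∈ {k | ω ∈ A k}, x < m ∧ (m : ℝ) < x + c * Real.log x ^ 2) ∧
      (∀ c : ℝ, c < exponent E → ∃ᶠ x : ℕ in atTop, x ∈ E ∧
        ∀ m ∈ {k | ω ∈ A k}, x < m → x + c * Real.log x ^ 2 ≤ (m : ℝ))) ∧
    (∀ c : ℝ, 0 < c → ∃ a b : ℝ, 1 ≤ a ∧ c * (a * Real.log a - a + 1) = exponent E ∧ 0 ≤ b ∧ b ≤ 1 ∧
      ((c ≤ exponent E ∧ b = 0) ∨ (0 < b ∧ c * (b * Real.log b - b + 1) = exponent E)) ∧
      ∀ᵐ ω ∂μ, ∀ ε : ℝ, 0 < ε →
        (∀ᶠ x : ℕ in atTop, x ∈ E →
          (count {k | ω ∈ A k} x (c * Real.log x ^ 2) : ℝ) < (a + ε) * c * Real.log x) ∧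
        (∃ᶠ x : ℕ in atTop, x ∈ E ∧
          (a - ε) * c * Real.log x < count {k | ω ∈ A k} x (c * Real.log x ^ 2)) ∧
        (∀ᶠ x : ℕ in atTop, x ∈ E →
          (b - ε) * c * Real.log x < count {k | ω ∈ A k} x (c * Real.log x ^ 2)) ∧
        (∃ᶠ x : ℕ in atTop, x ∈ E ∧
          (count {k | ω ∈ A k} x (c * Real.log x ^ 2) : ℝ) < (b + ε) * c * Real.log x)) ∧
    (exponent E < 1 → ∃ κ : ℝ, 0 < κ ∧ ∀ᵐ ω ∂μ, ∀ᶠ x : ℕ in atTop, x ∈ E →
      κ * Real.log x < count {k | ω ∈ A k} x (Real.log x ^ 2)) := by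
  have hprof := Pool.Agent.R528.RM.dens_profile (μ := μ) (ℱ := ℱ) hA Q hQ hcop hd
  have hα0 := exponent_nonneg E
  have h1 : ∀ s, exponent E < s → Summable (fun x : E => ((x : ℕ) : ℝ) ^ (-s)) := fun s hs => above hs
  have h2 : ∀ s, 0 < s → s < exponent E → ¬ Summable (fun x : E => ((x : ℕ) : ℝ) ^ (-s)) :=
    fun s hs hs' => below hs hs'
  refine ⟨⟨hα0, exponent_le_one E⟩, ?_, ?_, ?_⟩
  · -- the critical length
    have g1 : ∀ q : ℚ, exponent E < q → ∀ᵐ ω ∂μ, ∀ᶠ x : ℕ in atTop, x ∈ E →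
        0 < count {k | ω ∈ A k} x (q * Real.log x ^ 2) := by
      intro q hq
      have hq0 : (0 : ℝ) < q := lt_of_le_of_lt hα0 hq
      obtain ⟨κ, hκ, h3⟩ := Pool.Agent.R529.SM.nonempty_part (μ := μ) (ℱ := ℱ) hA hQ hprof hE hα0 h1 h2 hq0 hq
      filter_upwards [h3] with ω h3
      filter_upwards [h3, Pool.Agent.R528.RM.tendsto_log.eventually_gt_atTop 0] with x h4 h5 hxE
      rw [count_eq ω x hq0.le]
      have h6 := h4 hxE
      have h7 : 0 < κ * Real.log x := mul_pos hκ h5
      have h8 : (0 : ℝ) < (Pool.Agent.R528.RM.cnt A x (Pool.Agent.R529.SM.hh q x) ω : ℝ) := h7.trans h6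
      exact_mod_cast h8
    have g2 : ∀ q : ℚ, 0 < q → (q : ℝ) < exponent E → ∀ᵐ ω ∂μ, ∃ᶠ x : ℕ in atTop, x ∈ E ∧
        count {k | ω ∈ A k} x (q * Real.log x ^ 2) = 0 := by
      intro q hq0 hq
      have hq0' : (0 : ℝ) < q := by exact_mod_cast hq0
      filter_upwards [Pool.Agent.R529.SM.zero_part (μ := μ) (ℱ := ℱ) hA hQ hprof hE h2 hq0' hq] with ω h3
      refine h3.mono fun x hx => ⟨hx.1, ?_⟩
      rw [count_eq ω x hq0'.le]
      exact hx.2
    have g1' : ∀ᵐ ω ∂μ, ∀ q : ℚ, exponent E < q → ∀ᶠ x : ℕ in atTop, x ∈ E →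
        0 < count {k | ω ∈ A k} x (q * Real.log x ^ 2) := by
      rw [ae_all_iff]
      intro q
      by_cases hq : exponent E < q
      · filter_upwards [g1 q hq] with ω hω _
        exact hω
      · exact Eventually.of_forall fun ω h => absurd h hq
    have g2' : ∀ᵐ ω ∂μ, ∀ q : ℚ, 0 < q → (q : ℝ) < exponent E → ∃ᶠ x : ℕ in atTop, x ∈ E ∧
        count {k | ω ∈ A k} x (q * Real.log x ^ 2) = 0 := by
      rw [ae_all_iff]
      intro q
      by_cases hq : 0 < q ∧ (q : ℝ) < exponent E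
      · filter_upwards [g2 q hq.1 hq.2] with ω hω _ _
        exact hω
      · exact Eventually.of_forall fun ω h h' => absurd ⟨h, h'⟩ hq
    filter_upwards [g1', g2'] with ω k1 k2
    constructor
    · intro c hc
      obtain ⟨q, hq1, hq2⟩ := exists_rat_btwn hc
      filter_upwards [k1 q hq1] with x hx hxE
      obtain ⟨m, hm1, hm2, hm3⟩ := exists_member (hx hxE)
      refine ⟨m, hm1, hm2, hm3.trans_le ?_⟩
      have : (q : ℝ) * Real.log x ^ 2 ≤ c * Real.log x ^ 2 := mul_le_mul_of_nonneg_right hq2.le (by positivity)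
      linarith
    · intro c hc
      have hfreq : ∃ᶠ x : ℕ in atTop, x ∈ E := Nat.frequently_atTop_iff_infinite.2 hE
      by_cases hc0 : c ≤ 0
      · refine hfreq.mono fun x hx => ⟨hx, fun m _ hm => ?_⟩
        have h3 : c * Real.log x ^ 2 ≤ 0 := mul_nonpos_of_nonpos_of_nonneg hc0 (by positivity)
        have h4 : (x : ℝ) < m := by exact_mod_cast hm
        linarith
      · push Not at hc0
        obtain ⟨q, hq1, hq2⟩ := exists_rat_btwn hc
        have hq0 : 0 < q := by exact_mod_cast hc0.trans hq1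
        refine (k2 q hq0 hq2).mono fun x hx => ⟨hx.1, fun m hm hxm => ?_⟩
        have h3 := no_member hx.2 m hm hxm
        have : c * Real.log x ^ 2 ≤ (q : ℝ) * Real.log x ^ 2 := mul_le_mul_of_nonneg_right hq1.le (by positivity)
        linarith
  · -- extreme orders
    intro c hc
    obtain ⟨a, b, ha1, ha2, hb0, hb1, hb⟩ := Pool.Agent.R529.SM.roots hc hα0
    refine ⟨a, b, ha1, ha2, hb0, hb1, hb, ?_⟩
    filter_upwards [Pool.Agent.R529.SM.law (μ := μ) (ℱ := ℱ) hA hQ hprof hE hα0 h1 h2 hc ha1 ha2 hb0 hb1 hb] with ω hω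
    have e : ∀ x : ℕ, count {k | ω ∈ A k} x (c * Real.log x ^ 2) =
        Pool.Agent.R528.RM.cnt A x (Pool.Agent.R529.SM.hh c x) ω := fun x => count_eq ω x hc.le
    simp_rw [e]
    exact hω
  · intro hα1
    obtain ⟨κ, hκ, h3⟩ := Pool.Agent.R529.SM.nonempty_part (μ := μ) (ℱ := ℱ) hA hQ hprof hE hα0 h1 h2 one_pos hα1
    refine ⟨κ, hκ, ?_⟩
    filter_upwards [h3] with ω h3
    filter_upwards [h3] with x hx hxE
    have e := count_eq (A := A) ω x zero_le_one
    rw [one_mul] at e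
    rw [e]
    exact hx hxE
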