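import Mathlib
import Pool.Agent.R433.WF.ConjD

set_option autoImplicit false

/-!
# Record prime gaps around all the entries of a conjugate of an integral matrix

Let `f(Z) = log Z (log₂ Z)² log₄ Z / (log₃ Z)²` be the largest known order of prime gaps (up to
constants).  Let `X` be an integral `m × m` matrix, `m ≥ 3`, which is not the sum of a (complex)
scalar matrix and a matrix of rank at most one, let `B` be in `SL_m(ℤ)` and `q ≥ 1`.  For all large
`Z` there is a matrix `A` in `SL_m(ℤ)`, congruent to `B` modulo `q`, with entries at most `Z` in
absolute value, such that ALL the `m ^ 2` entries `y` of the conjugate `A X A⁻¹` are at most `Z` in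
absolute value and all the integers `t` at distance at most `c f(Z)` from `y` are composite, with a
prime factor `p ≤ |t| ^ (1/10)`.  So every conjugacy class of such matrices contains, in a
prescribed class modulo `q`, matrices all of whose entries (also those of the diagonal, whose sum
is the given trace) lie in the middle of prime gaps of the largest known order.

A companion matrix of degree `m ≥ 3` satisfies the assumption.  Hence every monic integral
polynomial of degree `m ≥ 3` is the characteristic polynomial of an integral matrix all of whose
entries lie in the middle of record gaps; such matrices can be nilpotent, unipotent, or of finite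
order (`X ^ k = 1`, by the choice of the conjugacy class).

Method.  The entries of `A X A⁻¹` are polynomials on `SL_m`.  Off the diagonal they are weight
vectors of the torus for the roots, and different roots are separated by cocharacters (`Wt`,
`ConjD`).  The entries of the diagonal are invariant under the torus; they are moved by elementary
matrices: `y_ii` becomes `y_ii + t y_ki`, so they are equidistributed modulo `p` up to the matrices
for which a column is `r e_i`, that is, for which a column of `A⁻¹` is an eigenvector of `X`; the
assumption on `X` means that all the eigenspaces have codimension at least two, also modulo all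
the large primes (`ConjB`: the 2 × 2 minors of `T - X` have no common root, Bézout), and the columns
of `A⁻¹` are uniformly distributed (`ConjC`).  Pairs of entries of the diagonal are treated by
elementary matrices which keep the sum `y_ii + y_jj` (`ConjA`).  With the almost uniform polynomial
parametrisations of `SL_m` (`R433/SL`) the criterion of the starting library (`Y837/SV/Crit3`)
applies.
-/

namespace Pool.Agent.Results.MP_45ff98_nt.ConjugacyClasses

open Matrix

/-- `f Z = log Z (log₂ Z)² log₄ Z / (log₃ Z)²`. -/
noncomputable def f (Z : ℝ) : ℝ :=
  Real.log Z * (Real.log (Real.log Z)) ^ 2 * Real.log (Real.log (Real.log (Real.log Z))) /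
    (Real.log (Real.log (Real.log Z))) ^ 2

/-- **Every conjugacy class of integral matrices of size at least three which are not the sum of a
scalar matrix and a matrix of rank at most one contains matrices all of whose entries lie in the
middle of prime gaps of record length.** -/
theorem result (m q : ℕ) (hm : 3 ≤ m) (hq : 0 < q) (X : Matrix (Fin m) (Fin m) ℤ)
    (hX : ∀ (z : ℂ) (a b : Fin m → ℂ),
      X.map (fun x : ℤ => (x : ℂ)) ≠ z • (1 : Matrix (Fin m) (Fin m) ℂ) + vecMulVec a b)
    (B : SpecialLinearGroup (Fin m) ℤ) :
    ∃ c : ℝ, 0 < c ∧ ∃ Z₀ : ℝ, ∀ Z : ℕ, Z₀ ≤ Z → ∃ A : SpecialLinearGroup (Fin m) ℤ,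
      (∀ i j, |A.1 i j| ≤ Z) ∧ (∀ i j, (q : ℤ) ∣ A.1 i j - B.1 i j) ∧
      ∀ i j, |(A.1 * X * (A⁻¹).1) i j| ≤ Z ∧
        ∀ t : ℤ, |(t : ℝ) - ((A.1 * X * (A⁻¹).1) i j : ℤ)| ≤ c * f Z →
          ∃ p : ℕ, p.Prime ∧ (p : ℤ) ^ 10 ≤ |t| ∧ (p : ℤ) ∣ t :=
  Pool.Agent.R433.WF.conjmain m q hm hq X hX B

end Pool.Agent.Results.MP_45ff98_nt.ConjugacyClasses
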