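import Pool.Agent.R529.FT.Main

/-!
Fortune's property for a positive proportion of the multiples of a primorial.
-/

set_option autoImplicit false

namespace Pool.Agent.Results.MP_45ff98_nt.FortunePropertyOfMultiples

open Finset

/-- The product of the primes `p ≤ y` with `p ≠ p₀`. -/
def primorialBut (y p₀ : ℕ) : ℕ := ∏ p ∈ (Icc 1 y).filter (fun p => p.Prime ∧ p ≠ p₀), p

/-- Fortune's property of `n`, with a bound: if `q` is the least prime exceeding `n + 1`, then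
`q - n` is a prime, and `q - n ≤ H`. -/
def Fortune (n H : ℕ) : Prop :=
  ∃ q : ℕ, IsLeast {r : ℕ | r.Prime ∧ n + 1 < r} q ∧ (q - n).Prime ∧ q ≤ n + H

open Classical in
theorem result : ∃ (K : ℕ) (c : ℝ) (z₀ : ℕ), 1 ≤ K ∧ 0 < c ∧ ∀ z : ℕ, z₀ ≤ z →
    ∃ p₀ : ℕ, p₀.Prime ∧ Real.log (Real.log z) ≤ p₀ ∧
    ∀ y H : ℕ, 1 ≤ y → (y : ℝ) ≤ c * H → (H : ℝ) ≤ c * Real.log z → H ≤ y ^ 2 →
      c * H ≤ ∑ m ∈ (Icc 1 (z ^ K)).filter (fun m => z < m * primorialBut y p₀ ∧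
        m * primorialBut y p₀ ≤ z ^ K ∧ Fortune (m * primorialBut y p₀) H), 1 / (m : ℝ) :=
  Pool.Agent.R529.FT.main

end Pool.Agent.Results.MP_45ff98_nt.FortunePropertyOfMultiples
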